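import Mathlib

/-!
Basic definitions for MP_fad40d_co (maximum 3-independent sets).
-/

open Finset
open scoped Pointwise

namespace Fad

/-- `T` has no solution of `x + y + z = 0` (repetitions allowed). -/
def ThreeFree {G : Type*} [AddCommGroup G] (T : Finset G) : Prop :=
  ∀ x ∈ T, ∀ y ∈ T, ∀ z ∈ T, x + y + z ≠ 0

/-- All primes dividing `n` are `3` or congruent to `1` modulo `3`. -/
def Cls (n : ℕ) : Prop := ∀ p : ℕ, p.Prime → p ∣ n → p = 3 ∨ p % 3 = 1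

/-- number of elements of `G` killed by `m` -/
noncomputable def tor (G : Type*) [AddCommGroup G] (m : ℕ) : ℕ :=
  Nat.card {x : G // m • x = 0}

/-- `3`-ranks: `rk G j` is the number of cyclic factors of order divisible by `3^(j+1)`. -/
noncomputable def rk (G : Type*) [AddCommGroup G] (j : ℕ) : ℕ :=
  Nat.log 3 (tor G (3 ^ (j + 1)) / tor G (3 ^ j))

/-- `S_i(r) = ∑_{j<N} (r_j - i)^+` -/
def sS (N : ℕ) (r : ℕ → ℕ) (i : ℕ) : ℕ := ∑ j ∈ range N, (r j - i)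

/-- `E(r) = ∑_{i=1}^{r_0} 2^{i-1} 3^{S_i(r)} + 2^{r_0}` -/
def eE (N : ℕ) (r : ℕ → ℕ) : ℕ := ∑ i ∈ range (r 0), 2 ^ i * 3 ^ sS N r (i + 1) + 2 ^ r 0

/-- Density profile of a zero-sum free set along the fibres of a surjection onto `ZMod q`. -/
structure Dens (q : ℕ) (a : ZMod q → ℝ) : Prop where
  nonneg : ∀ j, 0 ≤ a j
  le_one : ∀ j, a j ≤ 1
  refl : ∀ i j l, i + j + l = 0 → 0 < a l → a i + a j ≤ 1
  tors : ∀ j, 3 * j = 0 → a j ≤ 1 / 3

/-- total mass -/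
noncomputable def mass {q : ℕ} [NeZero q] (a : ZMod q → ℝ) : ℝ := ∑ j, a j

/-- `x`-coordinate of `- ∑ a_j e(j/q + s/3)` -/
noncomputable def cx {q : ℕ} [NeZero q] (a : ZMod q → ℝ) (s : ℤ) : ℝ :=
  - ∑ j : ZMod q, a j * Real.cos (2 * Real.pi * (j.val / q + s / 3))

/-- `y`-coordinate of `- ∑ a_j e(j/q + s/3)` -/
noncomputable def cy {q : ℕ} [NeZero q] (a : ZMod q → ℝ) (s : ℤ) : ℝ :=
  - ∑ j : ZMod q, a j * Real.sin (2 * Real.pi * (j.val / q + s / 3))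

/-- The bias condition coming from Fourier analysis. -/
def Biased {q : ℕ} [NeZero q] (a : ZMod q → ℝ) (s : ℤ) : Prop :=
  0 < cx a s ∧ 3 * cy a s ^ 2 ≤ cx a s ^ 2 ∧
    mass a ^ 2 * (cx a s ^ 2 + cy a s ^ 2) ≤
      (q - mass a) * (cx a s ^ 3 - 3 * cx a s * cy a s ^ 2)

/-- fibre sizes -/
def fib {G : Type*} [AddCommGroup G] {q : ℕ} (f : G →+ ZMod q) (T : Finset G) (j : ZMod q) :
    Finset G := T.filter (fun x => f x = j)

/-- fibre densities -/
noncomputable def dens {G : Type*} [AddCommGroup G] {q : ℕ} (f : G →+ ZMod q) (T : Finset G)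
    (j : ZMod q) : ℝ := ((fib f T j).card : ℝ) / (Nat.card f.ker : ℝ)

end Fad
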