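import Mathlib
import Pool.Agent.Lib_helper51.Fad.Defs

/-! The bathtub inequality for sums of cosines along a regular polygon. -/

open Finset MeasureTheory intervalIntegral

namespace Fad

/-- positive part function -/
noncomputable def gg (μ : ℝ) (t : ℝ) : ℝ := max (-Real.cos t - μ) 0

lemma gg_cont (μ : ℝ) : Continuous (gg μ) := by
  unfold gg
  fun_prop

lemma gg_periodic (μ : ℝ) : Function.Periodic (gg μ) (2 * Real.pi) := by
  intro t
  simp [gg, Real.cos_add_two_pi]

lemma integral_gg (β : ℝ) (h0 : 0 ≤ β) (h1 : β ≤ Real.pi) :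
    ∫ t in (0 : ℝ)..(2 * Real.pi), gg (Real.cos β) t ≤ 2 * Real.sin β - 2 * β * Real.cos β := by
  have hint : ∀ a b : ℝ, IntervalIntegrable (gg (Real.cos β)) volume a b := fun a b =>
    (gg_cont _).intervalIntegrable a b
  have hsplit : ∫ t in (0 : ℝ)..(2 * Real.pi), gg (Real.cos β) t
      = (∫ t in (0 : ℝ)..(Real.pi - β), gg (Real.cos β) t)
        + (∫ t in (Real.pi - β)..(Real.pi + β), gg (Real.cos β) t)
        + (∫ t in (Real.pi + β)..(2 * Real.pi), gg (Real.cos β) t) := by
    rw [integral_add_adjacent_intervals (hint _ _) (hint _ _),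
      integral_add_adjacent_intervals (hint _ _) (hint _ _)]
  have h1' : ∫ t in (0 : ℝ)..(Real.pi - β), gg (Real.cos β) t = 0 := by
    have : ∫ t in (0 : ℝ)..(Real.pi - β), gg (Real.cos β) t
        = ∫ t in (0 : ℝ)..(Real.pi - β), (0 : ℝ) := by
      apply integral_congr
      intro t ht
      rw [Set.uIcc_of_le (by linarith)] at ht
      have : -Real.cos t ≤ Real.cos β := by
        rw [← Real.cos_pi_sub]
        apply Real.cos_le_cos_of_nonneg_of_le_pi h0 <;> linarith [ht.1, ht.2]
      simp only [gg]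
      exact max_eq_right (by linarith)
    rw [this]; simp
  have h3' : ∫ t in (Real.pi + β)..(2 * Real.pi), gg (Real.cos β) t = 0 := by
    have : ∫ t in (Real.pi + β)..(2 * Real.pi), gg (Real.cos β) t
        = ∫ t in (Real.pi + β)..(2 * Real.pi), (0 : ℝ) := by
      apply integral_congr
      intro t ht
      rw [Set.uIcc_of_le (by linarith)] at ht
      have : -Real.cos t ≤ Real.cos β := by
        have e : -Real.cos t = Real.cos (t - Real.pi) := by
          rw [Real.cos_sub_pi]
        rw [e]
        apply Real.cos_le_cos_of_nonneg_of_le_pi h0 <;> linarith [ht.1, ht.2]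
      simp only [gg]
      exact max_eq_right (by linarith)
    rw [this]; simp
  have h2' : ∫ t in (Real.pi - β)..(Real.pi + β), gg (Real.cos β) t
      = 2 * Real.sin β - 2 * β * Real.cos β := by
    have : ∫ t in (Real.pi - β)..(Real.pi + β), gg (Real.cos β) t
        = ∫ t in (Real.pi - β)..(Real.pi + β), (-Real.cos t - Real.cos β) := by
      apply integral_congr
      intro t ht
      rw [Set.uIcc_of_le (by linarith)] at ht
      have : Real.cos β ≤ -Real.cos t := by
        have e : -Real.cos t = Real.cos |t - Real.pi| := by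
          rw [Real.cos_abs, Real.cos_sub_pi]
        rw [e]
        apply Real.cos_le_cos_of_nonneg_of_le_pi (abs_nonneg _) h1
        rw [abs_le]; constructor <;> linarith [ht.1, ht.2]
      simp only [gg]
      exact max_eq_left (by linarith)
    rw [this]
    rw [intervalIntegral.integral_sub (by apply Continuous.intervalIntegrable; fun_prop)
      (by apply Continuous.intervalIntegrable; fun_prop)]
    rw [intervalIntegral.integral_neg, integral_cos, intervalIntegral.integral_const]
    simp only [smul_eq_mul]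
    have e1 : Real.sin (Real.pi + β) = -Real.sin β := by
      rw [add_comm, Real.sin_add_pi]
    rw [e1, Real.sin_pi_sub]
    ring
  rw [hsplit, h1', h3', h2']
  simp

/-- one cell -/
lemma cell (μ θ h b : ℝ) (hh : 0 ≤ h) (hb0 : 0 ≤ b) (hb1 : b ≤ 1 / 2) :
    b * (-2 * Real.cos θ * Real.sin h - 2 * h * μ) ≤
      1 / 2 * ∫ t in (θ - h)..(θ + h), gg μ t := by
  have hle : θ - h ≤ θ + h := by linarith
  have hint : IntervalIntegrable (gg μ) volume (θ - h) (θ + h) :=
    (gg_cont _).intervalIntegrable _ _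
  have e : ∫ t in (θ - h)..(θ + h), (-Real.cos t - μ)
      = -2 * Real.cos θ * Real.sin h - 2 * h * μ := by
    rw [intervalIntegral.integral_sub (by apply Continuous.intervalIntegrable; fun_prop)
      (by apply Continuous.intervalIntegrable; fun_prop)]
    rw [intervalIntegral.integral_neg, integral_cos, intervalIntegral.integral_const]
    simp only [smul_eq_mul]
    rw [Real.sin_add, Real.sin_sub]
    ring
  have h1 : ∫ t in (θ - h)..(θ + h), (-Real.cos t - μ) ≤ ∫ t in (θ - h)..(θ + h), gg μ t := by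
    apply integral_mono_on hle (by apply Continuous.intervalIntegrable; fun_prop) hint
    intro t _
    exact le_max_left _ _
  have h2 : 0 ≤ ∫ t in (θ - h)..(θ + h), gg μ t := by
    apply integral_nonneg hle
    intro t _
    exact le_max_right _ _
  rw [e] at h1
  nlinarith

/-- The bathtub inequality. -/
theorem bathtub (q : ℕ) (hq : 2 ≤ q) (b : ℕ → ℝ) (γ : ℝ)
    (hb0 : ∀ j ∈ range q, 0 ≤ b j) (hb1 : ∀ j ∈ range q, b j ≤ 1 / 2) :
    - ∑ j ∈ range q, b j * Real.cos (2 * Real.pi * j / q + γ) ≤
      Real.sin (2 * Real.pi * (∑ j ∈ range q, b j) / q) / (2 * Real.sin (Real.pi / q)) := by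
  have hq0 : (0 : ℝ) < q := by positivity
  have hq2 : (2 : ℝ) ≤ q := by exact_mod_cast hq
  have hpi := Real.pi_pos
  set A : ℝ := ∑ j ∈ range q, b j with hA
  set h : ℝ := Real.pi / q with hh
  have hh0 : 0 < h := by positivity
  have hh1 : h < Real.pi := by
    rw [hh, div_lt_iff₀ hq0]
    nlinarith
  have hsin : 0 < Real.sin h := Real.sin_pos_of_pos_of_lt_pi hh0 hh1
  have hA0 : 0 ≤ A := Finset.sum_nonneg hb0
  have hA1 : A ≤ q / 2 := by
    calc A ≤ ∑ j ∈ range q, (1 / 2 : ℝ) := Finset.sum_le_sum hb1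
      _ = q / 2 := by simp; ring
  set β : ℝ := 2 * Real.pi * A / q with hβ
  have hβ0 : 0 ≤ β := by positivity
  have hβ1 : β ≤ Real.pi := by
    rw [hβ, div_le_iff₀ hq0]
    nlinarith
  set μ : ℝ := Real.cos β with hμ
  have hsum : ∑ j ∈ range q, (1 / 2 * ∫ t in ((2 * Real.pi * j / q + γ) - h)..((2 * Real.pi * j / q + γ) + h), gg μ t)
      = 1 / 2 * ∫ t in (0:ℝ)..(2 * Real.pi), gg μ t := by
    rw [← Finset.mul_sum]
    congr 1
    have hadj := sum_integral_adjacent_intervals (f := gg μ) (μ := volume)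
      (a := fun j : ℕ => 2 * Real.pi * (j : ℝ) / q + γ - h) (n := q)
      (fun k _ => (gg_cont _).intervalIntegrable _ _)
    have e1 : ∀ j ∈ range q, (∫ t in ((2 * Real.pi * j / q + γ) - h)..((2 * Real.pi * j / q + γ) + h), gg μ t)
        = ∫ t in (2 * Real.pi * (j : ℝ) / q + γ - h)..(2 * Real.pi * ((j + 1 : ℕ) : ℝ) / q + γ - h), gg μ t := by
      intro j _
      congr 1
      push_cast
      rw [hh]
      field_simp
      ring
    rw [Finset.sum_congr rfl e1, hadj]
    have e2 : (2 * Real.pi * ((q : ℕ) : ℝ) / q + γ - h) = (2 * Real.pi * ((0 : ℕ) : ℝ) / q + γ - h) + 2 * Real.pi := by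
      field_simp
      push_cast
      ring
    rw [e2, (gg_periodic μ).intervalIntegral_add_eq _ 0]
    simp
  have hcell : ∑ j ∈ range q, b j * (-2 * Real.cos (2 * Real.pi * j / q + γ) * Real.sin h - 2 * h * μ)
      ≤ 1 / 2 * ∫ t in (0:ℝ)..(2 * Real.pi), gg μ t := by
    rw [← hsum]
    apply Finset.sum_le_sum
    intro j hj
    exact cell μ _ h (b j) hh0.le (hb0 j hj) (hb1 j hj)
  have hI := integral_gg β hβ0 hβ1
  have e3 : ∑ j ∈ range q, b j * (-2 * Real.cos (2 * Real.pi * j / q + γ) * Real.sin h - 2 * h * μ)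
      = 2 * Real.sin h * (- ∑ j ∈ range q, b j * Real.cos (2 * Real.pi * j / q + γ)) - 2 * h * μ * A := by
    rw [hA, Finset.mul_sum, ← Finset.sum_neg_distrib, Finset.mul_sum, ← Finset.sum_sub_distrib]
    apply Finset.sum_congr rfl
    intro j _
    ring
  rw [e3] at hcell
  rw [le_div_iff₀ (by positivity)]
  have e4 : 2 * h * A = β := by
    rw [hh, hβ]; ring
  have e5 : 2 * h * μ * A = β * Real.cos β := by
    rw [← hμ, ← e4]; ring
  rw [e5] at hcell
  linarith

end Fad
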